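import Mathlib
/-!
# Density of the regulator: reduction to affine varieties, to high degrees of K-theory, and to
the Milnor range

`Q1 X i j` : the regulator `r : H^i_M(X, ℚ(j)) = K_{2j-i}(X)^{(j)} → H^i_H(X, ℚ(j))` has dense image.

* Q1 for `X × G_m`, `i`, `j` is equivalent to Q1 for `X`, `i`, `j` and `X`, `i - 1`, `j - 1`.
* Q1 for `X × P^m`, `i`, `j` is equivalent to Q1 for `X`, `i - 2 t`, `j - t`, `0 ≤ t ≤ m`.
* Q1 (for all `X`, `i`, `j`, in particular the Hodge conjecture for smooth projective varieties over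
  number fields, the part `i = 2 j`, `K_0`) is equivalent to its restriction to affine `X` and to
  `K_n`, `n = 2 j - i`, where `n` only runs through an arbitrary unbounded set of integers.
* The part `i ≤ j` of Q1 is equivalent to its restriction to affine `X` and `i = j = k`, where `k`
  only runs through an arbitrary unbounded set of integers.
-/
set_option autoImplicit false

namespace Pool.Agent.Results.MP_b2b689_ag.AffineHighDegree

universe u

/-- The cohomology groups and regulators. -/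
structure Coh where
  /-- smooth varieties over `ℂ` which can be defined over number fields -/
  Var : Type u
  /-- `H^i_M(X, ℚ(j))` -/
  M : Var → ℤ → ℤ → Type u
  /-- `H^i_H(X, ℚ(j))` -/
  H : Var → ℤ → ℤ → Type u
  [hTop : ∀ X i j, TopologicalSpace (H X i j)]
  /-- the zero class; the groups are not empty -/
  [mZero : ∀ X i j, Zero (M X i j)]
  /-- the regulator -/
  r : ∀ X i j, M X i j → H X i j
  /-- `X` is affine -/
  IsAffine : Var → Prop

attribute [instance] Coh.hTop Coh.mZero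

/-- Q1 for `X`, `i`, `j`. -/
def Coh.Q1 (C : Coh.{u}) (X : C.Var) (i j : ℤ) : Prop := DenseRange (C.r X i j)

/-- The map `r : M → H` is identified with `r' : M' → H'` by a bijection and a homeomorphism. -/
def Same {M H M' H' : Type*} [TopologicalSpace H] [TopologicalSpace H'] (r : M → H)
    (r' : M' → H') : Prop :=
  ∃ (e : M ≃ M') (eH : H ≃ₜ H'), ∀ x, eH (r x) = r' (e x)

/-- The product of the regulators of `X` for `(i, j)` and `(i - 1, j - 1)`. -/
def Coh.rGm (C : Coh.{u}) (X : C.Var) (i j : ℤ) :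
    C.M X i j × C.M X (i - 1) (j - 1) → C.H X i j × C.H X (i - 1) (j - 1) :=
  Prod.map (C.r X i j) (C.r X (i - 1) (j - 1))

/-- The product of the regulators of `X` for `(i - 2 t, j - t)`, `0 ≤ t ≤ m`. -/
def Coh.rProj (C : Coh.{u}) (m : ℕ) (X : C.Var) (i j : ℤ) :
    (∀ t : Fin (m + 1), C.M X (i - 2 * (t : ℕ)) (j - (t : ℕ))) →
      ∀ t : Fin (m + 1), C.H X (i - 2 * (t : ℕ)) (j - (t : ℕ)) :=
  Pi.map fun t : Fin (m + 1) => C.r X (i - 2 * (t : ℕ)) (j - (t : ℕ))

/-- The known properties. -/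
structure IsKnown (C : Coh.{u}) (gm : C.Var → C.Var) (proj : ℕ → C.Var → C.Var) : Prop where
  /-- `X × G_m` -/
  gm_same : ∀ X i j, Same (C.r (gm X) i j) (C.rGm X i j)
  /-- `X × P^m`: projective bundle formula -/
  proj_same : ∀ m X i j, Same (C.r (proj m X) i j) (C.rProj m X i j)
  /-- Jouanolou: over `X` (smooth, quasi-projective) there is a torsor under a vector bundle which is
  affine; it has the cohomology of `X` -/
  jouanolou : ∀ X, ∃ Y, C.IsAffine Y ∧ ∀ i j, Same (C.r Y i j) (C.r X i j)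

theorem Same.dense_iff {M H M' H' : Type*} [TopologicalSpace H] [TopologicalSpace H']
    {r : M → H} {r' : M' → H'} (h : Same r r') : DenseRange r ↔ DenseRange r' := by
  obtain ⟨e, eH, he⟩ := h
  have h1 : Set.range r' = eH '' Set.range r := by
    ext y
    constructor
    · rintro ⟨x, rfl⟩
      obtain ⟨x, rfl⟩ := e.surjective x
      exact ⟨r x, ⟨x, rfl⟩, he x⟩
    · rintro ⟨_, ⟨x, rfl⟩, rfl⟩
      exact ⟨e x, (he x).symm⟩
  unfold DenseRange
  rw [h1]
  constructor
  · intro h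
    exact eH.surjective.denseRange.dense_image eH.continuous h
  · intro h
    have h2 := eH.symm.surjective.denseRange.dense_image eH.symm.continuous h
    rwa [← Set.image_comp, show (eH.symm : H' → H) ∘ eH = id from funext eH.symm_apply_apply,
      Set.image_id] at h2

theorem prod_dense {M H M' H' : Type*} [TopologicalSpace H] [TopologicalSpace H'] [Nonempty M]
    [Nonempty M'] (r : M → H) (r' : M' → H') :
    DenseRange (Prod.map r r') ↔ DenseRange r ∧ DenseRange r' := by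
  constructor
  · intro h
    constructor
    · have : Nonempty H' := ⟨r' (Classical.arbitrary M')⟩
      have h1 := (Prod.fst_surjective (α := H) (β := H')).denseRange.comp h continuous_fst
      refine Dense.mono ?_ h1
      rintro _ ⟨x, rfl⟩
      exact ⟨x.1, rfl⟩
    · have : Nonempty H := ⟨r (Classical.arbitrary M)⟩
      have h1 := (Prod.snd_surjective (α := H) (β := H')).denseRange.comp h continuous_snd
      refine Dense.mono ?_ h1
      rintro _ ⟨x, rfl⟩
      exact ⟨x.2, rfl⟩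
  · rintro ⟨h, h'⟩
    exact h.prodMap h'

theorem pi_dense {ι : Type*} {M H : ι → Type*} [∀ t, TopologicalSpace (H t)]
    [∀ t, Nonempty (M t)] (r : ∀ t, M t → H t) :
    DenseRange (Pi.map r) ↔ ∀ t, DenseRange (r t) := by
  classical
  constructor
  · intro h t
    have : ∀ s, Nonempty (H s) := fun s => ⟨r s (Classical.arbitrary (M s))⟩
    have h1 := (Function.surjective_eval (β := H) t).denseRange.comp h (continuous_apply t)
    refine Dense.mono ?_ h1
    rintro _ ⟨x, rfl⟩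
    exact ⟨x t, rfl⟩
  · intro h
    have h1 := dense_pi (s := fun t => Set.range (r t)) Set.univ fun t _ => h t
    refine Dense.mono ?_ h1
    intro y hy
    choose x hx using fun t => hy t (Set.mem_univ t)
    exact ⟨x, funext hx⟩

variable {C : Coh.{u}} {gm : C.Var → C.Var} {proj : ℕ → C.Var → C.Var}

theorem gm_iff (h : IsKnown C gm proj) (X : C.Var) (i j : ℤ) :
    C.Q1 (gm X) i j ↔ C.Q1 X i j ∧ C.Q1 X (i - 1) (j - 1) := by
  have : ∀ i j, Nonempty (C.M X i j) := fun i j => ⟨0⟩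
  unfold Coh.Q1
  rw [(h.gm_same X i j).dense_iff]
  exact prod_dense _ _

theorem proj_iff (h : IsKnown C gm proj) (m : ℕ) (X : C.Var) (i j : ℤ) :
    C.Q1 (proj m X) i j ↔ ∀ t : Fin (m + 1), C.Q1 X (i - 2 * (t : ℕ)) (j - (t : ℕ)) := by
  have : ∀ i j, Nonempty (C.M X i j) := fun i j => ⟨0⟩
  unfold Coh.Q1
  rw [(h.proj_same m X i j).dense_iff]
  exact pi_dense _

/-- raising both indices by `a` with the variety `X × G_m^a` -/
theorem exists_gm (h : IsKnown C gm proj) (X : C.Var) (a : ℕ) :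
    ∃ Y : C.Var, ∀ i j, C.Q1 Y (i + a) (j + a) → C.Q1 X i j := by
  induction a with
  | zero => exact ⟨X, fun i j hX => by simpa using hX⟩
  | succ a ih =>
    obtain ⟨Y, hY⟩ := ih
    refine ⟨gm Y, fun i j hq => hY i j ?_⟩
    have h1 := ((gm_iff h Y _ _).1 hq).2
    have e1 : i + ((a + 1 : ℕ) : ℤ) - 1 = i + a := by push_cast; ring
    have e2 : j + ((a + 1 : ℕ) : ℤ) - 1 = j + a := by push_cast; ring
    rwa [e1, e2] at h1

theorem exists_affine (h : IsKnown C gm proj) (X : C.Var) (a : ℕ) :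
    ∃ Y : C.Var, C.IsAffine Y ∧ ∀ i j, C.Q1 Y (i + a) (j + a) → C.Q1 X i j := by
  obtain ⟨Y, hY⟩ := exists_gm h X a
  obtain ⟨Z, hZ, hs⟩ := h.jouanolou Y
  exact ⟨Z, hZ, fun i j hq => hY i j ((hs _ _).dense_iff.1 hq)⟩

theorem result (C : Coh.{u}) (gm : C.Var → C.Var) (proj : ℕ → C.Var → C.Var)
    (h : IsKnown C gm proj) :
    (∀ X i j, C.Q1 (gm X) i j ↔ C.Q1 X i j ∧ C.Q1 X (i - 1) (j - 1)) ∧
    (∀ m X i j, C.Q1 (proj m X) i j ↔
      ∀ t : Fin (m + 1), C.Q1 X (i - 2 * (t : ℕ)) (j - (t : ℕ))) ∧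
    (∀ N : Set ℤ, (∀ b : ℤ, ∃ n ∈ N, b ≤ n) →
      ((∀ X i j, C.Q1 X i j) ↔ ∀ X, C.IsAffine X → ∀ i j, 2 * j - i ∈ N → C.Q1 X i j)) ∧
    ∀ K : Set ℤ, (∀ b : ℤ, ∃ k ∈ K, b ≤ k) →
      ((∀ X i j, i ≤ j → C.Q1 X i j) ↔ ∀ X, C.IsAffine X → ∀ k ∈ K, C.Q1 X k k) := by
  refine ⟨gm_iff h, proj_iff h, fun N hN => ⟨fun hQ X _ i j _ => hQ X i j, fun hQ X i j => ?_⟩,
    fun K hK => ⟨fun hQ X _ k _ => hQ X k k le_rfl, fun hQ X i j hij => ?_⟩⟩
  · obtain ⟨n, hn, hb⟩ := hN (2 * j - i)
    obtain ⟨a, ha⟩ : ∃ a : ℕ, (a : ℤ) = n - (2 * j - i) :=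
      ⟨(n - (2 * j - i)).toNat, Int.toNat_of_nonneg (by omega)⟩
    obtain ⟨Y, hY, hq⟩ := exists_affine h X a
    refine hq i j (hQ Y hY _ _ ?_)
    have e : 2 * (j + a) - (i + a) = n := by omega
    rw [e]
    exact hn
  · obtain ⟨t, ht⟩ : ∃ t : ℕ, (t : ℤ) = j - i := ⟨(j - i).toNat, Int.toNat_of_nonneg (by omega)⟩
    obtain ⟨k, hk, hb⟩ := hK (j + t)
    obtain ⟨a, ha⟩ : ∃ a : ℕ, (a : ℤ) = k - (j + t) :=
      ⟨(k - (j + t)).toNat, Int.toNat_of_nonneg (by omega)⟩
    obtain ⟨Y, hY, hq⟩ := exists_affine h (proj t X) a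
    have h1 : C.Q1 (proj t X) (j + t) (j + t) := by
      refine hq _ _ ?_
      have e : j + t + a = k := by omega
      rw [e]
      exact hQ Y hY k hk
    have h2 := (proj_iff h t X _ _).1 h1 (Fin.last t)
    have e1 : j + t - 2 * ((Fin.last t : Fin (t + 1)) : ℕ) = i := by
      rw [Fin.val_last]
      omega
    have e2 : j + t - ((Fin.last t : Fin (t + 1)) : ℕ) = j := by
      rw [Fin.val_last]
      omega
    rwa [e1, e2] at h2

end Pool.Agent.Results.MP_b2b689_ag.AffineHighDegree
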