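import Mathlib
/-!
# Classes over `ℚ-bar` suffice

For a smooth variety `X` over `ℚ-bar` the image of `H^i_M(X, ℚ(j))`, `X` over `ℚ-bar`, and the image
of the much larger group `H^i_M(X_ℂ, ℚ(j))` in absolute Hodge cohomology have the same closure. So Q1
is equivalent to the density of the image of the countable groups `H^i_M(X, ℚ(j))`, `X` over
`ℚ-bar`, and the closure of the image of `r` does not change if `ℂ` is replaced by any algebraically
closed subfield.

The inputs are: every class over `ℂ` is the value at a complex point `s` of a class on `X × S`, where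
`S` is a smooth connected variety over `ℚ-bar`; the values at the points of `S` over `ℚ-bar` are
classes over `ℚ-bar`; the regulator of the value at `s` depends continuously on `s`; the points of
`S` over `ℚ-bar` are dense in `S(ℂ)`.
-/
set_option autoImplicit false

namespace Pool.Agent.Results.MP_b2b689_ag.AlgebraicNumbersSuffice

universe u

/-- The cohomology groups, regulators, and families of classes. -/
structure Coh where
  /-- smooth varieties over `ℚ-bar` -/
  Var : Type u
  /-- `H^i_M(X_ℂ, ℚ(j))` -/
  M : Var → ℤ → ℤ → Type u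
  /-- `H^i_M(X, ℚ(j))`, `X` over `ℚ-bar` -/
  Mbar : Var → ℤ → ℤ → Type u
  /-- `H^i_H(X_ℂ, ℚ(j))` -/
  H : Var → ℤ → ℤ → Type u
  [hTop : ∀ X i j, TopologicalSpace (H X i j)]
  /-- the regulator -/
  r : ∀ X i j, M X i j → H X i j
  /-- base change to `ℂ` -/
  base : ∀ X i j, Mbar X i j → M X i j
  /-- `S(ℂ)` with the complex topology -/
  Pt : Var → Type u
  [ptTop : ∀ S, TopologicalSpace (Pt S)]
  /-- the points of `S` over `ℚ-bar` -/
  alg : ∀ S, Set (Pt S)
  /-- `H^i_M(X × S, ℚ(j))`, `X × S` over `ℚ-bar` -/
  Fam : Var → Var → ℤ → ℤ → Type u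
  /-- the value in `H^i_M(X_ℂ, ℚ(j))` of a class on `X × S` at a point of `S(ℂ)` -/
  value : ∀ X S i j, Fam X S i j → Pt S → M X i j

attribute [instance] Coh.hTop Coh.ptTop

/-- The known properties. -/
structure IsKnown (C : Coh.{u}) : Prop where
  /-- every class over `ℂ` is defined over a finitely generated extension of `ℚ-bar`, so it is the
  value of a class on `X × S` at a complex point of a smooth variety `S` -/
  spread : ∀ X i j (c : C.M X i j), ∃ S, ∃ (x : C.Fam X S i j) (s : C.Pt S), C.value X S i j x s = c
  /-- values at points over `ℚ-bar` are classes over `ℚ-bar` -/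
  algebraic : ∀ X S i j (x : C.Fam X S i j), ∀ s ∈ C.alg S,
    ∃ b : C.Mbar X i j, C.base X i j b = C.value X S i j x s
  /-- the points over `ℚ-bar` are dense -/
  dense : ∀ S, Dense (C.alg S)
  /-- the regulators of the values depend continuously on the point -/
  cont : ∀ X S i j (x : C.Fam X S i j), Continuous fun s => C.r X i j (C.value X S i j x s)

/-- the image of the classes over `ℚ-bar` -/
def imageBar (C : Coh.{u}) (X : C.Var) (i j : ℤ) : Set (C.H X i j) :=
  Set.range fun b => C.r X i j (C.base X i j b)

/-- The image of `r` and the image of the classes over `ℚ-bar` have the same closure; the image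
of `r` is dense if and only if that of the classes over `ℚ-bar` is dense; and so Q1 holds if and only
if the latter holds for all `X`, `i`, `j`. More precisely, every set `N` of classes over `ℂ` which
contains the classes over `ℚ-bar` has an image with that closure. -/
theorem result (C : Coh.{u}) (hC : IsKnown C) :
    (∀ X i j, closure (Set.range (C.r X i j)) = closure (imageBar C X i j)) ∧
    (∀ X i j, DenseRange (C.r X i j) ↔ Dense (imageBar C X i j)) ∧
    ((∀ X i j, DenseRange (C.r X i j)) ↔ ∀ X i j, Dense (imageBar C X i j)) ∧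
    ∀ X i j (N : Set (C.M X i j)), Set.range (C.base X i j) ⊆ N →
      closure (C.r X i j '' N) = closure (imageBar C X i j) := by
  have h1 : ∀ X i j, Set.range (C.r X i j) ⊆ closure (imageBar C X i j) := by
    rintro X i j _ ⟨c, rfl⟩
    obtain ⟨S, x, s, rfl⟩ := hC.spread X i j c
    rw [mem_closure_iff]
    intro U hU hs
    obtain ⟨t, ht, hta⟩ := (hC.dense S).inter_open_nonempty _ (hU.preimage (hC.cont X S i j x))
      ⟨s, hs⟩
    obtain ⟨b, hb⟩ := hC.algebraic X S i j x t hta
    refine ⟨C.r X i j (C.value X S i j x t), ht, ⟨b, ?_⟩⟩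
    show C.r X i j (C.base X i j b) = _
    rw [hb]
  have h2 : ∀ X i j, imageBar C X i j ⊆ Set.range (C.r X i j) := by
    rintro X i j _ ⟨b, rfl⟩
    exact ⟨_, rfl⟩
  have h3 : ∀ X i j, closure (Set.range (C.r X i j)) = closure (imageBar C X i j) := fun X i j =>
    subset_antisymm (closure_minimal (h1 X i j) isClosed_closure) (closure_mono (h2 X i j))
  have h4 : ∀ X i j, DenseRange (C.r X i j) ↔ Dense (imageBar C X i j) := fun X i j => by
    rw [DenseRange, dense_iff_closure_eq, dense_iff_closure_eq, h3]
  refine ⟨h3, h4, ?_, fun X i j N hN => subset_antisymm ?_ (closure_mono ?_)⟩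
  · exact forall_congr' fun X => forall_congr' fun i => forall_congr' fun j => h4 X i j
  · refine closure_minimal ?_ isClosed_closure
    rintro _ ⟨c, _, rfl⟩
    exact h1 X i j ⟨c, rfl⟩
  · rintro _ ⟨b, rfl⟩
    exact ⟨_, hN ⟨b, rfl⟩, rfl⟩

end Pool.Agent.Results.MP_b2b689_ag.AlgebraicNumbersSuffice
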