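import Pool.Agent.Q115.DU.Tri

/-!
# Density of the regulator and the cubic hypersurfaces of tripartite hypergraphs

The schemes `X / ℂ` which can be defined over a number field are, together with their conjugates,
the connected components of the complexifications `X_ℂ` of the schemes `X` over `ℚ`; so question Q1
is the question for the complexifications of all smooth schemes `X` over `ℚ`.

Let `C` be the category of geometric motives over `ℂ` with rational coefficients, and `C'` the
derived category of (polarizable) mixed Hodge structures. For a scheme `X` of finite type over `ℚ`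
let `M X` and `Mc X` be the motive and the motive with compact support of `X_ℂ`, let
`T p q = ℚ(p)[q]`, and let `F : C ⥤ C'` be the realization functor. Then
`H^i_M(X_ℂ, ℚ(j)) = Hom_C(M X, T j i)`, `H^i_H(X_ℂ, ℚ(j)) = Hom_C'(F (M X), F (T j i))`, and the
regulator is the map given by `F`. The groups of homomorphisms in `C'` have their natural
topologies, the ones of the question for the groups `H^i_H`.

For a finite set `H` of triples of natural numbers let `X_H` be the smooth affine cubic hypersurface
`∑_{(i, j, l) ∈ H} x_i y_j z_l = 1` over `ℚ`. Let `DensM X n` be the density of the image of the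
regulator on `K_n(X_ℂ)`, that is in all `H^i_H(X_ℂ, ℚ(j))` with `2 j - i = n`.

**Theorem.** (1) For every smooth `X` over `ℚ` there is ONE `X_H` such that for all `n` the density
for `K_(n+3)(X_H)` implies the density for `K_n(X)`.

(2) For every `m`, question Q1 (for all smooth varieties and all degrees) has a positive answer if
and only if the image of the regulator is dense for `K_n(X_H)` for all `H` and all `n ≥ m`.

The density of the image is not a property with two out of three in long exact sequences. The proof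
shows that for every affine `X` of finite type `Mc X` is, up to shifts and Tate twists, a direct
factor of one `Mc X_H`.
-/

set_option autoImplicit false

open CategoryTheory CategoryTheory.Limits AlgebraicGeometry Pretriangulated Pool.Agent.Y116.UV
  Pool.Agent.Q193.LT Pool.Agent.Q115.DU

namespace Pool.Agent.Results.MP_b2b689_ag.HypergraphCubics

universe v u v' u'

/-- The motives `M X` of the complexifications of schemes over `ℚ`, the Tate objects
`T p q = ℚ(p)[q]`, the realization functor `F` and the topologies on the groups of homomorphisms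
between mixed Hodge complexes. -/
structure RegData (C : Type u) [Category.{v} C] [HasShift C ℤ] (C' : Type u') [Category.{v'} C']
    extends CData ℚ C where
  M : Sch ℚ → C
  T : ℤ → ℤ → C
  F : C ⥤ C'
  top : ∀ A B : C', TopologicalSpace (A ⟶ B)

variable {C : Type u} [Category.{v} C] [Preadditive C] [HasZeroObject C] [HasShift C ℤ]
  [∀ n : ℤ, (shiftFunctor C n).Additive] [Pretriangulated C] {C' : Type u'} [Category.{v'} C']

/-- The image of the map `Hom(A, B) → Hom(F A, F B)` given by the realization is dense. -/
def Dens (D : RegData C C') (A B : C) : Prop :=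
  @DenseRange _ (D.top (D.F.obj A) (D.F.obj B)) _ (fun f : A ⟶ B => D.F.map f)

/-- The image of the regulator is dense in `H^i_H(X_ℂ, ℚ(j))` for all `i`, `j` with
`2 j - i = n`. -/
def DensM (D : RegData C C') (X : Sch ℚ) (n : ℤ) : Prop :=
  ∀ i j : ℤ, 2 * j - i = n → Dens D (D.M X) (D.T j i)

/-- The same for the Borel-Moore homology groups. -/
def DensC (D : RegData C C') (X : Sch ℚ) (n : ℤ) : Prop :=
  ∀ p q : ℤ, q - 2 * p = n → Dens D (D.T p q) (D.Mc X)

/-- The standard properties.

* `compact`: the standard properties of motives with compact support (`IsCData`);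
* `post`, `pre`: compositions with a fixed homomorphism are continuous;
* `shift`, `twist`: the regulator is compatible with the isomorphisms
  `Hom(A, B) = Hom(A[1], B[1]) = Hom(A(1), B(1))`;
* `tate_shift`, `tate_twist`: `ℚ(p)[q + 1] = ℚ(p)[q][1]` and `ℚ(p + 1)[q + 2] = ℚ(p)[q](1)[2]`;
* `duality`: for smooth `X` of dimension `d` one has
  `Hom(M X, ℚ(j)[i]) = Hom(ℚ(d - j)[2 d - i], Mc X)`, compatibly with the regulators; so the
  density for `K_n(X)` is the density in the Borel-Moore homology groups of the same index `n`;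
* `jouanolou`: there is an affine bundle over `X` whose total space is affine (Jouanolou,
  Thomason). -/
structure IsReg (D : RegData C C') : Prop where
  compact : IsCData D.toCData
  post : ∀ {A B B' : C} (g : B ⟶ B'),
    @Continuous _ _ (D.top (D.F.obj A) (D.F.obj B)) (D.top (D.F.obj A) (D.F.obj B'))
      (fun f => f ≫ D.F.map g)
  pre : ∀ {A A' B : C} (g : A' ⟶ A),
    @Continuous _ _ (D.top (D.F.obj A) (D.F.obj B)) (D.top (D.F.obj A') (D.F.obj B))
      (fun f => D.F.map g ≫ f)
  shift : ∀ A B : C, Dens D (A⟦(1 : ℤ)⟧) (B⟦(1 : ℤ)⟧) → Dens D A B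
  twist : ∀ A B : C, Dens D (D.tw A) (D.tw B) → Dens D A B
  tate_shift : ∀ p q : ℤ, Nonempty (D.T p (q + 1) ≅ (D.T p q)⟦(1 : ℤ)⟧)
  tate_twist : ∀ p q : ℤ, Nonempty (D.T (p + 1) (q + 2) ≅ D.tw (D.T p q))
  duality : ∀ (X : Sch ℚ) (n : ℤ), FT True X → Smooth X.hom → (DensM D X n ↔ DensC D X n)
  jouanolou : ∀ X : Sch ℚ, FT True X → Smooth X.hom →
    ∃ (A : Type) (_ : CommRing A) (_ : Algebra ℚ A) (_ : Algebra.FiniteType ℚ A) (r : ℕ),
      Nonempty (D.Mc (aff ℚ A) ≅ D.tw^[r] (D.Mc X))

variable {D : RegData C C'}

/-- the density for the index `n` -/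
def Pn (D : RegData C C') (n : ℤ) (A : C) : Prop :=
  ∀ p q : ℤ, q - 2 * p = n → Dens D (D.T p q) A

lemma dens_post (hD : IsReg D) {A B B' : C} (s : B ⟶ B') (r : B' ⟶ B) (h : s ≫ r = 𝟙 B)
    (hB : Dens D A B') : Dens D A B := by
  let _ := D.top (D.F.obj A) (D.F.obj B)
  let _ := D.top (D.F.obj A) (D.F.obj B')
  have hs : Function.Surjective
      (fun f : D.F.obj A ⟶ D.F.obj B' => f ≫ D.F.map r) := by
    intro f
    refine ⟨f ≫ D.F.map s, ?_⟩
    change (f ≫ D.F.map s) ≫ D.F.map r = f
    rw [Category.assoc, ← D.F.map_comp, h, D.F.map_id, Category.comp_id]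
  have h1 : DenseRange ((fun f : D.F.obj A ⟶ D.F.obj B' => f ≫ D.F.map r) ∘
      (fun f : A ⟶ B' => D.F.map f)) := DenseRange.comp hs.denseRange hB (hD.post r)
  refine h1.mono ?_
  rintro _ ⟨f, rfl⟩
  exact ⟨f ≫ r, D.F.map_comp f r⟩

lemma dens_pre (hD : IsReg D) {A A' B : C} (e : A ≅ A') (hB : Dens D A B) : Dens D A' B := by
  let _ := D.top (D.F.obj A) (D.F.obj B)
  let _ := D.top (D.F.obj A') (D.F.obj B)
  have hs : Function.Surjective
      (fun f : D.F.obj A ⟶ D.F.obj B => D.F.map e.inv ≫ f) := by
    intro f
    refine ⟨D.F.map e.hom ≫ f, ?_⟩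
    change D.F.map e.inv ≫ D.F.map e.hom ≫ f = f
    rw [← Category.assoc, ← D.F.map_comp, e.inv_hom_id, D.F.map_id, Category.id_comp]
  have h1 : DenseRange ((fun f : D.F.obj A ⟶ D.F.obj B => D.F.map e.inv ≫ f) ∘
      (fun f : A ⟶ B => D.F.map f)) := DenseRange.comp hs.denseRange hB (hD.pre e.inv)
  refine h1.mono ?_
  rintro _ ⟨f, rfl⟩
  exact ⟨e.inv ≫ f, D.F.map_comp e.inv f⟩

/-- the density descends -/
lemma pn_descends (hD : IsReg D) : Descends D.toCData (Pn D) where
  retract n _ _ s r h hB p q hpq := dens_post hD s r h (hB p q hpq)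
  shift n A h p q hpq := by
    obtain ⟨e⟩ := hD.tate_shift p q
    exact hD.shift _ _ (dens_pre hD e (h p (q + 1) (by omega)))
  twist n A h p q hpq := by
    obtain ⟨e⟩ := hD.tate_twist p q
    exact hD.twist _ _ (dens_pre hD e (h (p + 1) (q + 2) (by omega)))

lemma smooth_trip {a b c : ℕ} (H : Finset (Fin a × Fin b × Fin c)) : Smooth (tripS ℚ H).hom := by
  change Smooth (Spec.map (CommRingCat.ofHom (algebraMap ℚ (Trip ℚ H))))
  rw [HasRingHomProperty.Spec_iff (P := @Smooth)]
  exact RingHom.smooth_algebraMap.mpr (trip_smooth H)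

/-- **Density of the regulator and hypergraph cubics.** -/
theorem result (hD : IsReg D) :
    (∀ X : Sch ℚ, FT True X → Smooth X.hom →
      ∃ (a b c : ℕ) (H : Finset (Fin a × Fin b × Fin c)), ∀ n : ℤ,
        DensM D (tripS ℚ H) (n + 3) → DensM D X n) ∧
    ∀ m : ℤ, (∀ X : Sch ℚ, FT True X → Smooth X.hom → ∀ n, DensM D X n) ↔
      ∀ (a b c : ℕ) (H : Finset (Fin a × Fin b × Fin c)), ∀ n, m ≤ n →
        DensM D (tripS ℚ H) n := by
  have hP := pn_descends hD
  have haff : ∀ (A : Type) [CommRing A] [Algebra ℚ A] [Algebra.FiniteType ℚ A],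
      ∃ (a b c : ℕ) (H : Finset (Fin a × Fin b × Fin c)), ∀ n : ℤ,
        DensM D (tripS ℚ H) (n + 3) → DensC D (aff ℚ A) n := by
    intro A _ _ _
    obtain ⟨a, b, c, H, h⟩ := one_graph hD.compact frac_rat A
    exact ⟨a, b, c, H, fun n hn => h _ hP n
      ((hD.duality _ _ (ft_aff True) (smooth_trip H)).1 hn)⟩
  refine ⟨?_, ?_⟩
  · intro X hX hs
    obtain ⟨A, _, _, _, r, e⟩ := hD.jouanolou X hX hs
    obtain ⟨a, b, c, H, h⟩ := haff A
    exact ⟨a, b, c, H, fun n hn => (hD.duality X n hX hs).2
      (desc_tw hP _ r (desc_iso hP e (h n hn)))⟩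
  · intro m
    constructor
    · intro h a b c H n _
      exact h _ (ft_aff True) (smooth_trip H) n
    · intro hH
      have key : ∀ (s : ℕ) (A : Type) [CommRing A] [Algebra ℚ A] [Algebra.FiniteType ℚ A]
          (n : ℤ), m - 3 - s ≤ n → DensC D (aff ℚ A) n := by
        intro s
        induction s with
        | zero =>
          intro A _ _ _ n hn
          obtain ⟨a, b, c, H, h⟩ := haff A
          exact h n (hH a b c H (n + 3) (by push_cast at hn; omega))
        | succ s ih =>
          intro A _ _ _ n hn
          have := ft_laurent (R := ℚ) A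
          have : Algebra.FiniteType ℚ (Polynomial A) :=
            Algebra.FiniteType.trans (S := A) inferInstance inferInstance
          obtain ⟨g, hg⟩ := split_open hD.compact _ _ (ft_aff True) (triple_zero ℚ A)
            (hD.compact.zero A)
          exact hP.shift n _ (hP.retract (n + 1) g _ hg
            (ih (LaurentPolynomial A) (n + 1) (by push_cast at hn; omega)))
      intro X hX hs n
      obtain ⟨A, _, _, _, r, e⟩ := hD.jouanolou X hX hs
      exact (hD.duality X n hX hs).2
        (desc_tw hP _ r (desc_iso hP e (key (m - 3 - n).toNat A n (by omega))))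

end Pool.Agent.Results.MP_b2b689_ag.HypergraphCubics
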