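import Pool.Agent.Q16.AH.Ladder
/-!
# Density of the regulator for varieties with mixed Tate motives

Q1 (density of the image of `r : H^i_M(X, ℚ(j)) → H^i_H(X, ℚ(j))`) holds for all `i`, `j` and all
smooth `X` whose motive over `ℚ-bar` is a mixed Tate motive: open subvarieties or not, for instance
complements of hyperplane arrangements, toric varieties, the moduli spaces `M_{0,n}`, homogeneous
spaces of reductive groups with cells, varieties stratified by products of affine spaces and tori.

The theorem is deduced from: Levine's category of mixed Tate motives over `ℚ-bar` (which uses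
Borel's vanishing theorem; `Ext² = 0`), Borel's theorem on the regulator of number fields and the
full faithfulness of the Hodge realization.
-/
set_option autoImplicit false

namespace Pool.Agent.Results.MP_b2b689_ag.MixedTateVarieties

open Pool.Agent.Q16.AH

universe u

/-- The cohomology groups and regulators. -/
structure Coh where
  /-- smooth varieties over `ℚ-bar` -/
  Var : Type u
  /-- `H^i_M(X_ℂ, ℚ(j))` -/
  M : Var → ℤ → ℤ → Type u
  /-- `H^i_M(X, ℚ(j))`, for `X` over `ℚ-bar` -/
  Mbar : Var → ℤ → ℤ → Type u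
  /-- `H^i_H(X_ℂ, ℚ(j))` with its topology -/
  H : Var → ℤ → ℤ → Type u
  [mGrp : ∀ X i j, AddCommGroup (M X i j)]
  [bGrp : ∀ X i j, AddCommGroup (Mbar X i j)]
  [hGrp : ∀ X i j, AddCommGroup (H X i j)]
  [hTop : ∀ X i j, TopologicalSpace (H X i j)]
  [hAdd : ∀ X i j, ContinuousAdd (H X i j)]
  /-- the regulator -/
  r : ∀ X i j, M X i j →+ H X i j
  /-- base change to `ℂ` -/
  base : ∀ X i j, Mbar X i j →+ M X i j

attribute [instance] Coh.mGrp Coh.bGrp Coh.hGrp Coh.hTop Coh.hAdd

/-- Mixed Tate motives over `ℚ-bar`. -/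
structure Mot where
  /-- the objects of the abelian category of mixed Tate motives over `ℚ-bar` -/
  Obj : Type u
  /-- `Ext¹(ℚ(0), A)` in that category -/
  E : Obj → Type u
  /-- `Ext¹(ℚ(0), A_H) = W_0 A_ℂ / (W_0 A_ℚ + F^0 ∩ W_0 A_ℂ)` in the category of mixed Hodge
  structures, with the quotient topology; `A_H` is the Hodge realization -/
  EH : Obj → Type u
  /-- `Hom(ℚ(0), A)` -/
  G : Obj → Type u
  /-- `Hom(ℚ(0), A_H)` with the discrete topology -/
  GH : Obj → Type u
  [eGrp : ∀ A, AddCommGroup (E A)]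
  [ehGrp : ∀ A, AddCommGroup (EH A)]
  [gGrp : ∀ A, AddCommGroup (G A)]
  [ghGrp : ∀ A, AddCommGroup (GH A)]
  [ehTop : ∀ A, TopologicalSpace (EH A)]
  [ehAdd : ∀ A, ContinuousAdd (EH A)]
  [ghTop : ∀ A, TopologicalSpace (GH A)]
  /-- the realization on `Ext¹` -/
  rE : ∀ A, E A →+ EH A
  /-- the realization on `Hom` -/
  rG : ∀ A, G A →+ GH A
  /-- the Tate motives `ℚ(n)` -/
  tate : ℤ → Obj
  /-- `0 → A' → A → A'' → 0` is an exact sequence -/
  SES : Obj → Obj → Obj → Prop
  /-- zero objects -/
  IsZero : Obj → Prop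

attribute [instance] Mot.eGrp Mot.ehGrp Mot.gGrp Mot.ghGrp Mot.ehTop Mot.ehAdd Mot.ghTop

/-- Iterated extensions of Tate motives. -/
inductive Iterated (T : Mot.{u}) : T.Obj → Prop
  | zero (A : T.Obj) : T.IsZero A → Iterated T A
  | ext (n : ℤ) (A' A : T.Obj) : T.SES A' A (T.tate n) → Iterated T A' → Iterated T A

/-- The known properties of mixed Tate motives over `ℚ-bar` and of their Hodge realizations. -/
structure IsKnown (T : Mot.{u}) : Prop where
  /-- the Hodge realization of a zero object is zero -/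
  zero : ∀ A, T.IsZero A → Subsingleton (T.EH A)
  /-- every object is an iterated extension of Tate motives -/
  iterated : ∀ A, Iterated T A
  /-- exact sequences give exact sequences of `Ext¹(ℚ(0), -)`; these functors are right exact
  (`Ext² = 0`) -/
  ladder : ∀ A' A A'', T.SES A' A A'' → Nonempty (Ladder (T.rE A') (T.rE A) (T.rE A''))
  /-- Borel: the regulators `K_{2n-1}(ℚ-bar) ⊗ ℚ → ℂ/ℚ(n)` have dense image (`n ≥ 1`); the targets
  are zero for `n ≤ 0` -/
  borel : ∀ n, DenseRange (T.rE (T.tate n))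
  /-- the Hodge realization is fully faithful -/
  full : ∀ A, Function.Surjective (T.rG A)

/-- `X` has a mixed Tate motive: there are mixed Tate motives `h i j = h^i(X)(j)` such that
`0 → Ext¹(ℚ(0), h^{i-1}(X)(j)) → H^i_M(X, ℚ(j)) → Hom(ℚ(0), h^i(X)(j)) → 0` and its analogue for
absolute Hodge cohomology are exact, compatibly with the regulator. -/
def IsMixedTate (C : Coh.{u}) (T : Mot.{u}) (X : C.Var) : Prop :=
  ∃ h : ℤ → ℤ → T.Obj, ∀ i j,
    Nonempty (Ladder (T.rE (h (i - 1) j)) ((C.r X i j).comp (C.base X i j)) (T.rG (h i j)))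

theorem ext_dense {T : Mot.{u}} (hT : IsKnown T) (A : T.Obj) : DenseRange (T.rE A) := by
  have h : ∀ A, Iterated T A → DenseRange (T.rE A) := by
    intro A hA
    induction hA with
    | zero A h0 =>
      have := hT.zero A h0
      intro x
      exact subset_closure ⟨0, Subsingleton.elim _ _⟩
    | ext n A' A hs _ ih =>
      obtain ⟨L⟩ := hT.ladder _ _ _ hs
      exact L.dense ih (hT.borel n)
  exact h A (hT.iterated A)

/-- For every mixed Tate motive `A` over `ℚ-bar` the extensions of `ℚ(0)` by `A` are dense in the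
extensions of mixed Hodge structures, and for all smooth `X` with a mixed Tate motive and all `i`,
`j` the regulator `r : H^i_M(X_ℂ, ℚ(j)) → H^i_H(X_ℂ, ℚ(j))` has dense image; already the image of
`H^i_M(X, ℚ(j))`, `X` over `ℚ-bar`, is dense. -/
theorem result (C : Coh.{u}) (T : Mot.{u}) (hT : IsKnown T) :
    (∀ A, DenseRange (T.rE A)) ∧
    ∀ X, IsMixedTate C T X → ∀ i j,
      DenseRange ((C.r X i j).comp (C.base X i j)) ∧ DenseRange (C.r X i j) := by
  refine ⟨ext_dense hT, fun X hX i j => ?_⟩
  obtain ⟨h, hh⟩ := hX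
  obtain ⟨L⟩ := hh i j
  have h1 : DenseRange ((C.r X i j).comp (C.base X i j)) :=
    L.dense (ext_dense hT _) (hT.full _).denseRange
  refine ⟨h1, Dense.mono ?_ h1⟩
  rintro _ ⟨x, rfl⟩
  exact ⟨_, rfl⟩

end Pool.Agent.Results.MP_b2b689_ag.MixedTateVarieties
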